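import Pool.Agent.Helper704.Z1.Pre

set_option autoImplicit false
set_option maxHeartbeats 4000000
set_option linter.unusedVariables false
set_option linter.unusedSectionVars false

open Matrix Finset

namespace Pool.Agent.TH704

noncomputable section

variable {m n ι : Type*} [Fintype m] [DecidableEq m] [Fintype n] [DecidableEq n]
  [Fintype ι] [DecidableEq ι]

variable {G : Type*} [CommRing G] [Fintype G]









theorem EP_eq (j : ℕ) (t : G) (f g h : G → G → ℝ) :
    EP j t f g h = EH j t f g + EH j t g h + EH j t h f := by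
  have h2 : ∑ p : G, ∑ q : G, EE (MM1 j q (t - p - q) g) (MM1 j (t - p - q) p h) = EH j t g h := by
    unfold EH
    rw [← sum_rot (fun q r => EE (MM1 j q r g) (MM1 j r (t - q - r) h)) t]
    refine Finset.sum_congr rfl fun p _ => Finset.sum_congr rfl fun q _ => ?_
    have e : t - q - (t - p - q) = p := by ring
    simp only [e]
  have h3 : ∑ p : G, ∑ q : G, EE (MM1 j (t - p - q) p h) (MM1 j p q f) = EH j t h f := by
    unfold EH
    rw [← sum_rot (fun p q => EE (MM1 j (t - p - q) p h) (MM1 j p q f)) t]
    refine Finset.sum_congr rfl fun p _ => Finset.sum_congr rfl fun q _ => ?_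
    have e : t - q - (t - p - q) = p := by ring
    simp only [e]
  have h1 : EP j t f g h = (∑ p : G, ∑ q : G, EE (MM1 j p q f) (MM1 j q (t - p - q) g)) +
      (∑ p : G, ∑ q : G, EE (MM1 j q (t - p - q) g) (MM1 j (t - p - q) p h)) +
      (∑ p : G, ∑ q : G, EE (MM1 j (t - p - q) p h) (MM1 j p q f)) := by
    unfold EP E3
    simp only [Finset.sum_add_distrib]
  rw [h1, h2, h3]
  rfl

end

end Pool.Agent.TH704
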