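import Pool.Agent.Helper704.Z1.Pre

set_option autoImplicit false
set_option maxHeartbeats 4000000
set_option linter.unusedVariables false
set_option linter.unusedSectionVars false

open Matrix Finset

namespace Pool.Agent.TH704

noncomputable section

variable {m n ι : Type*} [Fintype m] [DecidableEq m] [Fintype n] [DecidableEq n]
  [Fintype ι] [DecidableEq ι]

variable {G : Type*} [CommRing G] [Fintype G]





























theorem hs_tr_nonneg {κ : Type*} [Fintype κ] (W : Matrix κ κ ℝ) (hW : Wᵀ = W) :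
    0 ≤ trace (W * W) := by
  have h : trace (W * W) = ∑ i, ∑ k, W i k * W i k := by
    simp only [trace, diag_apply, mul_apply]
    refine sum_congr rfl fun i _ => sum_congr rfl fun k _ => ?_
    have h1 : W k i = W i k := congrFun (congrFun hW i) k
    rw [h1]
  rw [h]
  exact sum_nonneg fun i _ => sum_nonneg fun k _ => mul_self_nonneg _

theorem hs_cs {κ : Type*} [Fintype κ] (U V : Matrix κ κ ℝ) (hU : Uᵀ = U) (hV : Vᵀ = V) :
    |trace (U * V)| ≤ (1 / 2) * trace (U * U) + (1 / 2) * trace (V * V) := by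
  have h1 := hs_tr_nonneg (U + V) (by rw [transpose_add, hU, hV])
  have h2 := hs_tr_nonneg (U - V) (by rw [transpose_sub, hU, hV])
  have hc := trace_mul_comm U V
  have e1 : (U + V) * (U + V) = U * U + U * V + V * U + V * V := by noncomm_ring
  have e2 : (U - V) * (U - V) = U * U - U * V - V * U + V * V := by noncomm_ring
  rw [e1, trace_add, trace_add, trace_add] at h1
  rw [e2, trace_add, trace_sub, trace_sub] at h2
  rw [abs_le]
  constructor <;> linarith

theorem hs_PP_symm {κ : Type*} [Fintype κ] [DecidableEq κ] (A : Matrix κ κ ℝ) :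
    (PP A)ᵀ = PP A := by
  unfold PP
  rw [transpose_sub, transpose_one, transpose_nonsing_inv, transpose_add, transpose_one,
    transpose_mul, transpose_transpose]

theorem hs_QQ_symm {κ : Type*} [Fintype κ] [DecidableEq κ] (A : Matrix κ κ ℝ) :
    (QQ A)ᵀ = QQ A := by
  unfold QQ
  rw [transpose_sub, transpose_one, transpose_nonsing_inv, transpose_add, transpose_one,
    transpose_mul, transpose_transpose]

theorem hs_psd_row {κ : Type*} [Fintype κ] [DecidableEq κ] (A : Matrix κ κ ℝ) :
    ((1 + Aᵀ * A) - 1).PosSemidef := by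
  have h : (1 + Aᵀ * A) - 1 = Aᴴ * A := by
    rw [conjTranspose_eq_transpose_of_trivial]
    abel
  rw [h]
  exact posSemidef_conjTranspose_mul_self A

theorem hs_psd_col {κ : Type*} [Fintype κ] [DecidableEq κ] (A : Matrix κ κ ℝ) :
    ((1 + A * Aᵀ) - 1).PosSemidef := by
  have h : (1 + A * Aᵀ) - 1 = A * Aᴴ := by
    rw [conjTranspose_eq_transpose_of_trivial]
    abel
  rw [h]
  exact posSemidef_self_mul_conjTranspose A

theorem hs_P {κ : Type*} [Fintype κ] [DecidableEq κ] (A A' : Matrix κ κ ℝ) :
    trace ((PP A' - PP A) * (PP A' - PP A)) ≤ 8 * LD (1 + Aᵀ * A) (1 + A'ᵀ * A') := by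
  have h : PP A' - PP A = (1 + Aᵀ * A)⁻¹ - (1 + A'ᵀ * A')⁻¹ := by
    unfold PP
    abel
  rw [h]
  exact pair_frob _ _ (hs_psd_row A) (hs_psd_row A')

theorem hs_Q {κ : Type*} [Fintype κ] [DecidableEq κ] (A A' : Matrix κ κ ℝ) :
    trace ((QQ A' - QQ A) * (QQ A' - QQ A)) ≤ 8 * LD (1 + A * Aᵀ) (1 + A' * A'ᵀ) := by
  have h : QQ A' - QQ A = (1 + A * Aᵀ)⁻¹ - (1 + A' * A'ᵀ)⁻¹ := by
    unfold QQ
    abel
  rw [h]
  exact pair_frob _ _ (hs_psd_col A) (hs_psd_col A')

theorem hs_col {κ : Type*} [Fintype κ] [DecidableEq κ] (f : Bool → Bool → Matrix κ κ ℝ) :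
    LD (1 + (f false false)ᵀ * f false false) (1 + (f true false)ᵀ * f true false) ≤
      2 * dPsi f := by
  have h := chain_col f
  rw [Fintype.sum_bool] at h
  have h1 := LD_nonneg _ _ (posdef_col (cl2 (fun b => f b false)))
    (posdef_col (cl2 (fun b => f b true)))
  have h2 := LD_nonneg _ _ (posdef_row (f false true)) (posdef_row (f true true))
  linarith

theorem hs_row {κ : Type*} [Fintype κ] [DecidableEq κ] (f : Bool → Bool → Matrix κ κ ℝ) :
    LD (1 + f false false * (f false false)ᵀ) (1 + f false true * (f false true)ᵀ) ≤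
      2 * dPsi f := by
  have h := chain_row f
  rw [Fintype.sum_bool] at h
  have h1 := LD_nonneg _ _ (posdef_row (rw2 (f false))) (posdef_row (rw2 (f true)))
  have h2 := LD_nonneg _ _ (posdef_col (f true false)) (posdef_col (f true true))
  linarith

theorem HH_second (j : ℕ) (t : G) (f g : G → G → ℝ) :
    |HH j (t + 2 * ((2 ^ j : ℕ) : G)) f g - 2 * HH j (t + ((2 ^ j : ℕ) : G)) f g + HH j t f g|
      ≤ 8 * (SS j f - SS (j + 1) f) + 8 * (SS j g - SS (j + 1) g) := by
  set u : G := ((2 ^ j : ℕ) : G) with hu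
  have hoff0 : ((off j false : ℕ) : G) = 0 := by simp [off]
  have hoff1 : ((off j true : ℕ) : G) = u := by simp [off, hu]
  -- the two differences
  let dP : G → G → Matrix (Idx j) (Idx j) ℝ := fun p q => PP (MM j (p + u) q f) - PP (MM j p q f)
  let dQ : G → G → Matrix (Idx j) (Idx j) ℝ := fun q r => QQ (MM j q (r + u) g) - QQ (MM j q r g)
  have hexp : HH j (t + 2 * u) f g - 2 * HH j (t + u) f g + HH j t f g =
      ∑ p : G, ∑ q : G, trace (dP p q * dQ q (t - p - q)) := by
    have e1 : HH j (t + 2 * u) f g =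
        ∑ p : G, ∑ q : G, trace (PP (MM j (p + u) q f) * QQ (MM j q (t - p - q + u) g)) := by
      unfold HH
      rw [← sum_shift2 (fun p q => trace (PP (MM j p q f) * QQ (MM j q (t + 2 * u - p - q) g))) u 0]
      refine sum_congr rfl fun p _ => sum_congr rfl fun q _ => ?_
      rw [add_zero, show t + 2 * u - (p + u) - q = t - p - q + u by ring]
    have e2 : HH j (t + u) f g =
        ∑ p : G, ∑ q : G, trace (PP (MM j (p + u) q f) * QQ (MM j q (t - p - q) g)) := by
      unfold HH
      rw [← sum_shift2 (fun p q => trace (PP (MM j p q f) * QQ (MM j q (t + u - p - q) g))) u 0]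
      refine sum_congr rfl fun p _ => sum_congr rfl fun q _ => ?_
      rw [add_zero, show t + u - (p + u) - q = t - p - q by ring]
    have e3 : HH j (t + u) f g =
        ∑ p : G, ∑ q : G, trace (PP (MM j p q f) * QQ (MM j q (t - p - q + u) g)) := by
      unfold HH
      refine sum_congr rfl fun p _ => sum_congr rfl fun q _ => ?_
      rw [show t + u - p - q = t - p - q + u by ring]
    have e4 : HH j t f g =
        ∑ p : G, ∑ q : G, trace (PP (MM j p q f) * QQ (MM j q (t - p - q) g)) := rfl
    have e5 : HH j (t + 2 * u) f g - 2 * HH j (t + u) f g + HH j t f g =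
        HH j (t + 2 * u) f g - HH j (t + u) f g - HH j (t + u) f g + HH j t f g := by ring
    rw [e5]
    nth_rewrite 1 [e2]
    rw [e1, e3, e4]
    rw [← sum_sub_distrib, ← sum_sub_distrib, ← sum_add_distrib]
    refine sum_congr rfl fun p _ => ?_
    rw [← sum_sub_distrib, ← sum_sub_distrib, ← sum_add_distrib]
    refine sum_congr rfl fun q _ => ?_
    simp only [dP, dQ]
    rw [sub_mul, mul_sub, mul_sub, trace_sub, trace_sub, trace_sub]
    ring
  rw [hexp]
  have hPs : ∀ p q, (dP p q)ᵀ = dP p q := fun p q => by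
    simp only [dP]
    rw [transpose_sub, hs_PP_symm, hs_PP_symm]
  have hQs : ∀ q r, (dQ q r)ᵀ = dQ q r := fun q r => by
    simp only [dQ]
    rw [transpose_sub, hs_QQ_symm, hs_QQ_symm]
  have hPb : ∀ p q, trace (dP p q * dP p q) ≤
      16 * dPsi (fun a b => MM j (p + ((off j a : ℕ) : G)) (q + ((off j b : ℕ) : G)) f) := by
    intro p q
    have h1 := hs_P (MM j p q f) (MM j (p + u) q f)
    have h2 := hs_col (fun a b => MM j (p + ((off j a : ℕ) : G)) (q + ((off j b : ℕ) : G)) f)
    simp only [hoff0, hoff1, add_zero] at h2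
    simp only [dP]
    linarith
  have hQb : ∀ q r, trace (dQ q r * dQ q r) ≤
      16 * dPsi (fun a b => MM j (q + ((off j a : ℕ) : G)) (r + ((off j b : ℕ) : G)) g) := by
    intro q r
    have h1 := hs_Q (MM j q r g) (MM j q (r + u) g)
    have h2 := hs_row (fun a b => MM j (q + ((off j a : ℕ) : G)) (r + ((off j b : ℕ) : G)) g)
    simp only [hoff0, hoff1, add_zero] at h2
    simp only [dQ]
    linarith
  have hterm : ∀ p q, |trace (dP p q * dQ q (t - p - q))| ≤
      8 * dPsi (fun a b => MM j (p + ((off j a : ℕ) : G)) (q + ((off j b : ℕ) : G)) f) +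
      8 * dPsi (fun a b => MM j (q + ((off j a : ℕ) : G))
        ((t - p - q) + ((off j b : ℕ) : G)) g) := by
    intro p q
    have h1 := hs_cs (dP p q) (dQ q (t - p - q)) (hPs _ _) (hQs _ _)
    have h2 := hPb p q
    have h3 := hQb q (t - p - q)
    linarith
  calc |∑ p : G, ∑ q : G, trace (dP p q * dQ q (t - p - q))|
      ≤ ∑ p : G, ∑ q : G, |trace (dP p q * dQ q (t - p - q))| := by
        refine (abs_sum_le_sum_abs _ _).trans ?_
        exact sum_le_sum fun p _ => abs_sum_le_sum_abs _ _
    _ ≤ ∑ p : G, ∑ q : G,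
        (8 * dPsi (fun a b => MM j (p + ((off j a : ℕ) : G)) (q + ((off j b : ℕ) : G)) f) +
        8 * dPsi (fun a b => MM j (q + ((off j a : ℕ) : G))
          ((t - p - q) + ((off j b : ℕ) : G)) g)) :=
        sum_le_sum fun p _ => sum_le_sum fun q _ => hterm p q
    _ = 8 * (SS j f - SS (j + 1) f) + 8 * (SS j g - SS (j + 1) g) := by
        rw [← SS_diff j f, ← SS_diff j g, ← sum_rot (fun q r =>
          dPsi (fun a b => MM j (q + ((off j a : ℕ) : G)) (r + ((off j b : ℕ) : G)) g)) t]
        simp only [sum_add_distrib, mul_sum]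

end

end Pool.Agent.TH704
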