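import Pool.Agent.Helper704.Z1.Pre

set_option autoImplicit false
set_option maxHeartbeats 4000000
set_option linter.unusedVariables false
set_option linter.unusedSectionVars false

open Matrix Finset

namespace Pool.Agent.TH704

noncomputable section

variable {G : Type*} [CommRing G] [Fintype G]

theorem PhiZ_zero (t : G) (f g h : G → G → ℝ) :
    PhiZ t 0 f g h ≤ 33 * (SC f + SC g + SC h) := by
  letI : Unique (Idx 0) := inferInstanceAs (Unique Unit)
  have e : ∀ (p q : G) (f : G → G → ℝ), MM 0 p q f default default = f p q := by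
    intro p q f
    show (1 / 2 : ℝ) ^ 0 * f (p + ((0 : ℕ) : G)) (q + ((0 : ℕ) : G)) = f p q
    simp
  have ht : ∀ (p q r : G) (f g : G → G → ℝ), trace (PP (MM 0 p q f) * QQ (MM 0 q r g))
      ≤ (1 / 2) * (sc (f p q) + sc (g q r)) := by
    intro p q r f g
    rw [trace_uniq_aux, mulT_uniq_aux, PP_uniq_aux, QQ_uniq_aux, e, e]
    have b1 := sq_le_aux (f p q)
    have b2 := sq_le_aux (g q r)
    nlinarith [sq_nonneg ((1 - (1 + f p q ^ 2)⁻¹) - (1 - (1 + g q r ^ 2)⁻¹))]
  have hH : ∀ (t : G) (f g : G → G → ℝ), HH 0 t f g ≤ (1 / 2) * (SC f + SC g) := by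
    intro t f g
    unfold HH
    calc ∑ p : G, ∑ q : G, trace (PP (MM 0 p q f) * QQ (MM 0 q (t - p - q) g))
        ≤ ∑ p : G, ∑ q : G, (1 / 2) * (sc (f p q) + sc (g q (t - p - q))) :=
          Finset.sum_le_sum fun p _ => Finset.sum_le_sum fun q _ => ht _ _ _ _ _
      _ = (1 / 2) * (SC f + SC g) := by
          simp only [← Finset.mul_sum, Finset.sum_add_distrib]
          rw [sum_rot (fun q r => sc (g q r)) t]
          rfl
  have hS : ∀ f : G → G → ℝ, SS 0 f ≤ SC f := by
    intro f
    refine Finset.sum_le_sum fun p _ => Finset.sum_le_sum fun q _ => ?_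
    have := Psi_le_aux (MM 0 p q f)
    rwa [e] at this
  unfold PhiZ GG
  have := hH (np t 0) f g
  have := hH (np t 0) g h
  have := hH (np t 0) h f
  have := hH (np t 0 + ((2 ^ 0 : ℕ) : G)) f g
  have := hH (np t 0 + ((2 ^ 0 : ℕ) : G)) g h
  have := hH (np t 0 + ((2 ^ 0 : ℕ) : G)) h f
  have := hS f
  have := hS g
  have := hS h
  linarith

end

end Pool.Agent.TH704
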