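import Pool.Agent.Helper704.Z1.K_hhineq
import Pool.Agent.Helper704.Z1.K_hhsec
import Pool.Agent.Helper704.Z1.K_epeq
import Pool.Agent.Helper704.Z1.K_phizero

set_option autoImplicit false
set_option maxHeartbeats 4000000
set_option linter.unusedVariables false
set_option linter.unusedSectionVars false

open Matrix Finset

namespace Pool.Agent.TH704

noncomputable section

variable {m n ι : Type*} [Fintype m] [DecidableEq m] [Fintype n] [DecidableEq n]
  [Fintype ι] [DecidableEq ι]

variable {G : Type*} [CommRing G] [Fintype G]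

theorem np_succ (t : G) (j : ℕ) : np t j = np t (j + 1) + 2 * ((2 ^ j : ℕ) : G) := by
  unfold np
  push_cast
  ring

theorem GG_ineq (j : ℕ) (t : G) (f g : G → G → ℝ) :
    GG (j + 1) (np t (j + 1)) f g
      + (1 / 4) * (EH j (np t (j + 1)) f g + EH j (np t (j + 1) + ((2 ^ (j + 1) : ℕ) : G)) f g)
      ≤ GG j (np t j) f g + 16 * (SS j f - SS (j + 1) f) + 16 * (SS j g - SS (j + 1) g) := by
  rw [np_succ t j]
  set s := np t (j + 1) with hs
  set u : G := ((2 ^ j : ℕ) : G) with hu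
  have e2 : ((2 ^ (j + 1) : ℕ) : G) = 2 * u := by
    rw [hu]; push_cast; ring
  unfold GG
  rw [e2]
  have a1 := HH_ineq j s f g
  have a2 := HH_ineq j (s + 2 * u) f g
  have b0 := abs_le.mp (HH_second j s f g)
  have b1 := abs_le.mp (HH_second j (s + u) f g)
  have b2 := abs_le.mp (HH_second j (s + 2 * u) f g)
  have b3 := abs_le.mp (HH_second j (s + 3 * u) f g)
  rw [← hu] at a1 a2 b0 b1 b2 b3
  have c1 : s + 2 * u + u = s + 3 * u := by ring
  have c2 : s + 2 * u + 2 * u = s + 4 * u := by ring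
  have c3 : s + 2 * u + 3 * u = s + 5 * u := by ring
  have c4 : s + u + 2 * u = s + 3 * u := by ring
  have c5 : s + u + u = s + 2 * u := by ring
  have c6 : s + 3 * u + 2 * u = s + 5 * u := by ring
  have c7 : s + 3 * u + u = s + 4 * u := by ring
  rw [c1, c2, c3] at a2
  rw [c4, c5] at b1
  rw [c1, c2] at b2
  rw [c6, c7] at b3
  rw [c1]
  obtain ⟨_, b0⟩ := b0
  obtain ⟨_, b1⟩ := b1
  obtain ⟨_, b2⟩ := b2
  obtain ⟨_, b3⟩ := b3
  linarith

theorem PhiZ_step (t : G) (j : ℕ) (f g h : G → G → ℝ) :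
    PhiZ t (j + 1) f g h + (1 / 4) * (EP j (np t (j + 1)) f g h
      + EP j (np t (j + 1) + ((2 ^ (j + 1) : ℕ) : G)) f g h) ≤ PhiZ t j f g h := by
  have h1 := GG_ineq j t f g
  have h2 := GG_ineq j t g h
  have h3 := GG_ineq j t h f
  rw [EP_eq, EP_eq]
  unfold PhiZ
  linarith

theorem PhiZ_nonneg (t : G) (j : ℕ) (f g h : G → G → ℝ) : 0 ≤ PhiZ t j f g h := by
  have H : ∀ (s : G) (f g : G → G → ℝ), 0 ≤ HH j s f g := fun s f g =>
    Finset.sum_nonneg fun p _ => Finset.sum_nonneg fun q _ =>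
      trace_mul_nonneg (PP_psd _) (QQ_psd _)
  have S : ∀ (f : G → G → ℝ), 0 ≤ SS j f := fun f =>
    Finset.sum_nonneg fun p _ => Finset.sum_nonneg fun q _ => Psi_nonneg _
  unfold PhiZ GG
  have := S f
  have := S g
  have := S h
  have := H (np t j) f g
  have := H (np t j) g h
  have := H (np t j) h f
  have := H (np t j + ((2 ^ j : ℕ) : G)) f g
  have := H (np t j + ((2 ^ j : ℕ) : G)) g h
  have := H (np t j + ((2 ^ j : ℕ) : G)) h f
  linarith

theorem energy_le (t : G) (f g h : G → G → ℝ) (J : ℕ) :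
    ∑ j ∈ range J, (EP j (np t (j + 1)) f g h
      + EP j (np t (j + 1) + ((2 ^ (j + 1) : ℕ) : G)) f g h) ≤ 132 * (SC f + SC g + SC h) := by
  have key : ∀ J : ℕ, PhiZ t J f g h + (1 / 4) * ∑ j ∈ range J, (EP j (np t (j + 1)) f g h
      + EP j (np t (j + 1) + ((2 ^ (j + 1) : ℕ) : G)) f g h) ≤ PhiZ t 0 f g h := by
    intro J
    induction J with
    | zero => simp
    | succ J ih =>
      rw [Finset.sum_range_succ]
      have := PhiZ_step t J f g h
      linarith
  have h1 := key J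
  have h2 := PhiZ_nonneg t J f g h
  have h3 := PhiZ_zero t f g h
  linarith

end

end Pool.Agent.TH704
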