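import Pool.Agent.Helper704.Z1.Pre
import Pool.Agent.Helper704.Z1.Mid

set_option autoImplicit false
set_option maxHeartbeats 4000000
set_option linter.unusedVariables false
set_option linter.unusedSectionVars false

open Matrix Finset

namespace Pool.Agent.TH704

noncomputable section

variable {m n ι : Type*} [Fintype m] [DecidableEq m] [Fintype n] [DecidableEq n]
  [Fintype ι] [DecidableEq ι]

variable {G : Type*} [CommRing G] [Fintype G]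





















theorem NP_TT_plane (l : ℝ) (hl : 0 < l) (K : ℕ) (f g h : G → G → ℝ) (j : ℕ) (T : G) :
    ∑ p : G, ∑ q : G, |TT (2 ^ K * l) (MM1 j p q f) (MM1 j q (T - p - q) g) (MM1 j (T - p - q) p h)
      - TT l (MM1 j p q f) (MM1 j q (T - p - q) g) (MM1 j (T - p - q) p h)| ≤
    ∑ k ∈ range K, 4 * (2 ^ k * l) ^ 3 * EP j T (sG (2 ^ k * l)⁻¹ f) (sG (2 ^ k * l)⁻¹ g)
      (sG (2 ^ k * l)⁻¹ h) := by
  have h1 : ∀ k, 4 * (2 ^ k * l) ^ 3 * EP j T (sG (2 ^ k * l)⁻¹ f) (sG (2 ^ k * l)⁻¹ g)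
      (sG (2 ^ k * l)⁻¹ h) = ∑ p : G, ∑ q : G, 4 * ((2 ^ k * l) ^ 3 *
      E3 ((2 ^ k * l)⁻¹ • (MM1 j p q f)) ((2 ^ k * l)⁻¹ • (MM1 j q (T - p - q) g))
        ((2 ^ k * l)⁻¹ • (MM1 j (T - p - q) p h))) := by
    intro k
    unfold EP
    rw [Finset.mul_sum]
    apply Finset.sum_congr rfl
    intro p _
    rw [Finset.mul_sum]
    apply Finset.sum_congr rfl
    intro q _
    rw [MM1_sG, MM1_sG, MM1_sG, mul_assoc]
  simp only [h1]
  rw [Finset.sum_comm (s := range K)]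
  apply Finset.sum_le_sum
  intro p _
  rw [Finset.sum_comm (s := range K)]
  apply Finset.sum_le_sum
  intro q _
  exact TT_tele l hl _ _ _ K

theorem NP_TT_sc (l : ℝ) (hl : 0 < l) (K : ℕ) (f : G → G → ℝ) :
    ∑ k ∈ range K, (2 ^ k * l) ^ 3 * SC (sG (2 ^ k * l)⁻¹ f) ≤ 4 * ∑ x : G, ∑ y : G, |f x y| ^ 3 := by
  have h1 : ∀ k, (2 ^ k * l) ^ 3 * SC (sG (2 ^ k * l)⁻¹ f) =
      ∑ x : G, ∑ y : G, (2 ^ k * l) ^ 3 * sc ((2 ^ k * l)⁻¹ * f x y) := by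
    intro k
    unfold SC sG
    rw [Finset.mul_sum]
    apply Finset.sum_congr rfl
    intro p _
    rw [Finset.mul_sum]
  simp only [h1]
  rw [Finset.sum_comm, Finset.mul_sum]
  apply Finset.sum_le_sum
  intro p _
  rw [Finset.sum_comm, Finset.mul_sum]
  apply Finset.sum_le_sum
  intro q _
  exact sc_sum l hl K _

theorem NP_TT (l : ℝ) (hl : 0 < l) (K : ℕ) (t : G) (f g h : G → G → ℝ) (J : ℕ) :
    NP (fun _ A B C => |TT (2 ^ K * l) A B C - TT l A B C|) t f g h J ≤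
      2112 * ∑ x : G, ∑ y : G, (|f x y| ^ 3 + |g x y| ^ 3 + |h x y| ^ 3) := by
  unfold NP
  have h1 : ∑ j ∈ range J, ((∑ p : G, ∑ q : G, |TT (2 ^ K * l) (MM1 j p q f)
        (MM1 j q (np t (j + 1) - p - q) g) (MM1 j (np t (j + 1) - p - q) p h)
        - TT l (MM1 j p q f) (MM1 j q (np t (j + 1) - p - q) g) (MM1 j (np t (j + 1) - p - q) p h)|)
      + ∑ p : G, ∑ q : G, |TT (2 ^ K * l) (MM1 j p q f)
        (MM1 j q (np t (j + 1) + ((2 ^ (j + 1) : ℕ) : G) - p - q) g)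
        (MM1 j (np t (j + 1) + ((2 ^ (j + 1) : ℕ) : G) - p - q) p h)
        - TT l (MM1 j p q f) (MM1 j q (np t (j + 1) + ((2 ^ (j + 1) : ℕ) : G) - p - q) g)
          (MM1 j (np t (j + 1) + ((2 ^ (j + 1) : ℕ) : G) - p - q) p h)|) ≤
      ∑ j ∈ range J, ∑ k ∈ range K, 4 * (2 ^ k * l) ^ 3 *
        (EP j (np t (j + 1)) (sG (2 ^ k * l)⁻¹ f) (sG (2 ^ k * l)⁻¹ g) (sG (2 ^ k * l)⁻¹ h)
        + EP j (np t (j + 1) + ((2 ^ (j + 1) : ℕ) : G)) (sG (2 ^ k * l)⁻¹ f)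
          (sG (2 ^ k * l)⁻¹ g) (sG (2 ^ k * l)⁻¹ h)) := by
    apply Finset.sum_le_sum
    intro j _
    have ha := NP_TT_plane l hl K f g h j (np t (j + 1))
    have hb := NP_TT_plane l hl K f g h j (np t (j + 1) + ((2 ^ (j + 1) : ℕ) : G))
    refine (add_le_add ha hb).trans (le_of_eq ?_)
    rw [← Finset.sum_add_distrib]
    apply Finset.sum_congr rfl
    intro k _
    ring
  refine h1.trans ?_
  rw [Finset.sum_comm]
  have h2 : ∀ k ∈ range K, ∑ j ∈ range J, 4 * (2 ^ k * l) ^ 3 *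
        (EP j (np t (j + 1)) (sG (2 ^ k * l)⁻¹ f) (sG (2 ^ k * l)⁻¹ g) (sG (2 ^ k * l)⁻¹ h)
        + EP j (np t (j + 1) + ((2 ^ (j + 1) : ℕ) : G)) (sG (2 ^ k * l)⁻¹ f)
          (sG (2 ^ k * l)⁻¹ g) (sG (2 ^ k * l)⁻¹ h)) ≤
      528 * ((2 ^ k * l) ^ 3 * SC (sG (2 ^ k * l)⁻¹ f) + (2 ^ k * l) ^ 3 * SC (sG (2 ^ k * l)⁻¹ g)
        + (2 ^ k * l) ^ 3 * SC (sG (2 ^ k * l)⁻¹ h)) := by
    intro k _
    rw [← Finset.mul_sum]
    have h3 := energy_le t (sG (2 ^ k * l)⁻¹ f) (sG (2 ^ k * l)⁻¹ g) (sG (2 ^ k * l)⁻¹ h) J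
    have h4 : (0 : ℝ) ≤ 4 * (2 ^ k * l) ^ 3 := by positivity
    refine (mul_le_mul_of_nonneg_left h3 h4).trans (le_of_eq ?_)
    ring
  refine (Finset.sum_le_sum h2).trans ?_
  rw [← Finset.mul_sum, Finset.sum_add_distrib, Finset.sum_add_distrib]
  have hf := NP_TT_sc l hl K f
  have hg := NP_TT_sc l hl K g
  have hh := NP_TT_sc l hl K h
  have h5 : ∑ x : G, ∑ y : G, (|f x y| ^ 3 + |g x y| ^ 3 + |h x y| ^ 3) =
      ∑ x : G, ∑ y : G, |f x y| ^ 3 + ∑ x : G, ∑ y : G, |g x y| ^ 3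
        + ∑ x : G, ∑ y : G, |h x y| ^ 3 := by
    simp only [Finset.sum_add_distrib]
  rw [h5]
  linarith

end

end Pool.Agent.TH704
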