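import Pool.Agent.Helper704.Z1.Pre

set_option autoImplicit false
set_option maxHeartbeats 4000000
set_option linter.unusedVariables false
set_option linter.unusedSectionVars false

open Matrix Finset

namespace Pool.Agent.TH704

noncomputable section

variable {m n ι : Type*} [Fintype m] [DecidableEq m] [Fintype n] [DecidableEq n]
  [Fintype ι] [DecidableEq ι]

variable {G : Type*} [CommRing G] [Fintype G]








theorem sum_vma (N R : ℕ) [NeZero N] (hN : 10 * R + 10 ≤ N) (g : ℤ → ℝ)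
    (hg : ∀ x, g x ≠ 0 → -(R : ℤ) ≤ x ∧ x < R) :
    ∑ x : ZMod N, g x.valMinAbs = ∑ x ∈ Ico (-(R : ℤ)) (R : ℤ), g x := by
  have hv : ∀ a ∈ Ico (-(R : ℤ)) (R : ℤ), ((a : ZMod N)).valMinAbs = a := by
    intro a ha
    rw [Finset.mem_Ico] at ha
    rw [ZMod.valMinAbs_spec]
    refine ⟨rfl, ?_, ?_⟩
    · have : (10 * (R : ℤ) + 10 ≤ N) := by exact_mod_cast hN
      omega
    · have : (10 * (R : ℤ) + 10 ≤ N) := by exact_mod_cast hN
      omega
  have hinj : Set.InjOn (fun a : ℤ => (a : ZMod N)) (Ico (-(R : ℤ)) (R : ℤ) : Finset ℤ) := by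
    intro a ha b hb hab
    have h1 := hv a ha
    have h2 := hv b hb
    simp only at hab
    rw [← h1, ← h2, hab]
  have h1 : ∑ x ∈ Ico (-(R : ℤ)) (R : ℤ), g x =
      ∑ y ∈ (Ico (-(R : ℤ)) (R : ℤ)).image (fun a : ℤ => (a : ZMod N)), g y.valMinAbs := by
    rw [Finset.sum_image hinj]
    exact Finset.sum_congr rfl fun a ha => by rw [hv a ha]
  rw [h1]
  symm
  apply Finset.sum_subset (Finset.subset_univ _)
  intro y _ hy
  by_contra hne
  apply hy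
  rw [Finset.mem_image]
  refine ⟨y.valMinAbs, ?_, ?_⟩
  · rw [Finset.mem_Ico]
    exact hg _ hne
  · exact ZMod.coe_valMinAbs y

theorem per_A3 (N R : ℕ) [NeZero N] (hN : 10 * R + 10 ≤ N) (f : ℤ → ℤ → ℝ)
    (hf : ∀ x y, f x y ≠ 0 → (-(R : ℤ) ≤ x ∧ x < R) ∧ (-(R : ℤ) ≤ y ∧ y < R)) :
    ∑ x : ZMod N, ∑ y : ZMod N, |per N f x y| ^ 3 = A3 R f := by
  unfold per A3
  have hz : ∀ t : ℝ, |t| ^ 3 ≠ 0 → t ≠ 0 := by
    intro t ht h0
    apply ht
    rw [h0]; simp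
  have h1 : ∀ x : ℤ, ∑ y : ZMod N, |f x y.valMinAbs| ^ 3 =
      ∑ y ∈ Ico (-(R : ℤ)) (R : ℤ), |f x y| ^ 3 := by
    intro x
    exact sum_vma N R hN (fun y => |f x y| ^ 3) (fun y hy => (hf x y (hz _ hy)).2)
  simp only [h1]
  apply sum_vma N R hN (fun x => ∑ y ∈ Ico (-(R : ℤ)) (R : ℤ), |f x y| ^ 3)
  intro x hx
  obtain ⟨y, _, hy⟩ := Finset.exists_ne_zero_of_sum_ne_zero hx
  exact (hf x y (hz _ hy)).1

end

end Pool.Agent.TH704
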