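import Pool.Agent.Helper704.Z1.Pre

set_option autoImplicit false
set_option maxHeartbeats 4000000
set_option linter.unusedVariables false
set_option linter.unusedSectionVars false

open Matrix Finset

namespace Pool.Agent.TH704

noncomputable section

variable {m n ι : Type*} [Fintype m] [DecidableEq m] [Fintype n] [DecidableEq n]
  [Fintype ι] [DecidableEq ι]

variable {G : Type*} [CommRing G] [Fintype G]












theorem per_sum3_aux1 (N R : ℕ) [NeZero N] (hN : 10 * R + 10 ≤ N) (a : ℤ)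
    (ha : a ∈ Ico (-(R : ℤ)) (R : ℤ)) : ((a : ℤ) : ZMod N).valMinAbs = a := by
  rw [Finset.mem_Ico] at ha
  rw [ZMod.valMinAbs_spec]
  refine ⟨rfl, ?_, ?_⟩
  · have : (10 * (R : ℤ) + 10) ≤ N := by exact_mod_cast hN
    linarith [ha.1, ha.2]
  · have : (10 * (R : ℤ) + 10) ≤ N := by exact_mod_cast hN
    linarith [ha.1, ha.2]

theorem per_sum3_aux2 (N R : ℕ) [NeZero N] (hN : 10 * R + 10 ≤ N) (F : ZMod N → ℝ)
    (hF : ∀ x : ZMod N, ¬ (-(R : ℤ) ≤ x.valMinAbs ∧ x.valMinAbs < R) → F x = 0) :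
    ∑ x : ZMod N, F x = ∑ a ∈ Ico (-(R : ℤ)) (R : ℤ), F (a : ZMod N) := by
  classical
  rw [← Finset.sum_image (f := F) (s := Ico (-(R : ℤ)) (R : ℤ))
    (g := fun a : ℤ => (a : ZMod N))]
  · symm
    apply Finset.sum_subset (Finset.subset_univ _)
    intro x _ hx
    apply hF
    intro h
    apply hx
    rw [Finset.mem_image]
    exact ⟨x.valMinAbs, Finset.mem_Ico.mpr h, ZMod.coe_valMinAbs x⟩
  · intro a ha b hb hab
    have h1 := per_sum3_aux1 N R hN a ha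
    have h2 := per_sum3_aux1 N R hN b hb
    have h3 : ((a : ℤ) : ZMod N) = ((b : ℤ) : ZMod N) := hab
    rw [← h1, ← h2, h3]

theorem per_sum3_aux3 (N R J : ℕ) [NeZero N] (hN : 10 * R + 10 * 2 ^ J + 10 ≤ N) (j : ℕ)
    (hj : j ≤ J) (t : ℤ) (ht : |t| ≤ 3 * 2 ^ J) (a b c : ℤ)
    (ha : a ∈ Ico (-(R : ℤ)) (R : ℤ)) (hb : b ∈ Ico (-(R : ℤ)) (R : ℤ))
    (hc : c ∈ Ico (-(R : ℤ)) (R : ℤ)) :
    kG j ((a : ZMod N) + (b : ZMod N) + (c : ZMod N) - (t : ZMod N)) = kk j (a + b + c - t) := by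
  rw [Finset.mem_Ico] at ha hb hc
  have h2 : (2 : ℕ) ^ j ≤ 2 ^ J := Nat.pow_le_pow_right (by norm_num) hj
  have hN' : (10 * (R : ℤ) + 10 * 2 ^ J + 10) ≤ N := by exact_mod_cast hN
  have ht' := abs_le.mp ht
  unfold kG kk
  rw [_root_.one_div_pow]
  congr 1
  refine Finset.sum_congr rfl fun i hi => Finset.sum_congr rfl fun k hk =>
    Finset.sum_congr rfl fun l hl => ?_
  rw [Finset.mem_range] at hi hk hl
  have hi' : (i : ℤ) ≤ 2 ^ J := by exact_mod_cast (hi.le.trans h2)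
  have hk' : (k : ℤ) ≤ 2 ^ J := by exact_mod_cast (hk.le.trans h2)
  have hl' : (l : ℤ) ≤ 2 ^ J := by exact_mod_cast (hl.le.trans h2)
  have hi0 : (0 : ℤ) ≤ i := Int.natCast_nonneg i
  have hk0 : (0 : ℤ) ≤ k := Int.natCast_nonneg k
  have hl0 : (0 : ℤ) ≤ l := Int.natCast_nonneg l
  have hiff : (((i + k + l : ℕ) : ZMod N) =
      (a : ZMod N) + (b : ZMod N) + (c : ZMod N) - (t : ZMod N)) ↔
      ((i : ℤ) + (k : ℤ) + (l : ℤ)) = a + b + c - t := by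
    constructor
    · intro h
      have h3 : (((i : ℤ) + (k : ℤ) + (l : ℤ) : ℤ) : ZMod N) = ((a + b + c - t : ℤ) : ZMod N) := by
        push_cast at h ⊢
        exact h
      rw [ZMod.intCast_eq_intCast_iff_dvd_sub] at h3
      have h4 := Int.eq_zero_of_abs_lt_dvd h3 (by
        rw [abs_lt]
        constructor <;> linarith [ha.1, ha.2, hb.1, hb.2, hc.1, hc.2, ht'.1, ht'.2])
      linarith
    · intro h
      have h3 := congrArg (fun z : ℤ => (z : ZMod N)) h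
      push_cast at h3 ⊢
      exact h3
  by_cases hcond : ((i : ℤ) + (k : ℤ) + (l : ℤ)) = a + b + c - t
  · rw [if_pos (hiff.mpr hcond), if_pos hcond]
  · rw [if_neg (fun h => hcond (hiff.mp h)), if_neg hcond]

theorem per_sum3 (N R J : ℕ) [NeZero N] (hN : 10 * R + 10 * 2 ^ J + 10 ≤ N) (j : ℕ) (hj : j ≤ J)
    (t : ℤ) (ht : |t| ≤ 3 * 2 ^ J)
    (f g h : ℤ → ℤ → ℝ)
    (hf : ∀ x y, f x y ≠ 0 → (-(R : ℤ) ≤ x ∧ x < R) ∧ (-(R : ℤ) ≤ y ∧ y < R))
    (hg : ∀ x y, g x y ≠ 0 → (-(R : ℤ) ≤ x ∧ x < R) ∧ (-(R : ℤ) ≤ y ∧ y < R))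
    (hh : ∀ x y, h x y ≠ 0 → (-(R : ℤ) ≤ x ∧ x < R) ∧ (-(R : ℤ) ≤ y ∧ y < R)) :
    ∑ x : ZMod N, ∑ y : ZMod N, ∑ z : ZMod N, per N f x y * per N g y z * per N h z x *
        kG j (x + y + z - (t : ZMod N)) = DZ R j t f g h := by
  have hN0 : 10 * R + 10 ≤ N := by
    have : 0 ≤ 10 * 2 ^ J := Nat.zero_le _
    omega
  have hf1 : ∀ x y : ZMod N, ¬ (-(R : ℤ) ≤ x.valMinAbs ∧ x.valMinAbs < R) → per N f x y = 0 := by
    intro x y hx
    by_contra hc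
    exact hx (hf _ _ hc).1
  have hf2 : ∀ x y : ZMod N, ¬ (-(R : ℤ) ≤ y.valMinAbs ∧ y.valMinAbs < R) → per N f x y = 0 := by
    intro x y hx
    by_contra hc
    exact hx (hf _ _ hc).2
  have hg2 : ∀ x y : ZMod N, ¬ (-(R : ℤ) ≤ y.valMinAbs ∧ y.valMinAbs < R) → per N g x y = 0 := by
    intro x y hx
    by_contra hc
    exact hx (hg _ _ hc).2
  unfold DZ
  rw [per_sum3_aux2 N R hN0 _ (fun x hx => by
    refine Finset.sum_eq_zero fun y _ => Finset.sum_eq_zero fun z _ => ?_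
    rw [hf1 x y hx]; ring)]
  refine Finset.sum_congr rfl fun a ha => ?_
  rw [per_sum3_aux2 N R hN0 _ (fun y hy => by
    refine Finset.sum_eq_zero fun z _ => ?_
    rw [hf2 _ y hy]; ring)]
  refine Finset.sum_congr rfl fun b hb => ?_
  rw [per_sum3_aux2 N R hN0 _ (fun z hz => by
    rw [hg2 _ z hz]; ring)]
  refine Finset.sum_congr rfl fun c hc => ?_
  rw [per_sum3_aux3 N R J hN j hj t ht a b c ha hb hc]
  simp only [per, per_sum3_aux1 N R hN0 a ha, per_sum3_aux1 N R hN0 b hb,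
    per_sum3_aux1 N R hN0 c hc]

end

end Pool.Agent.TH704
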