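import Pool.Agent.Helper704.Z1.Pre

set_option autoImplicit false
set_option maxHeartbeats 4000000
set_option linter.unusedVariables false
set_option linter.unusedSectionVars false

open Matrix Finset

namespace Pool.Agent.TH704

noncomputable section

variable {m n ι : Type*} [Fintype m] [DecidableEq m] [Fintype n] [DecidableEq n]
  [Fintype ι] [DecidableEq ι]

variable {G : Type*} [CommRing G] [Fintype G]















theorem out2S (S : Finset ℕ) (K : G → G → ℕ → ℝ) :
    ∑ p : G, ∑ q : G, ∑ i ∈ S, K p q i = ∑ i ∈ S, ∑ p : G, ∑ q : G, K p q i := by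
  calc ∑ p : G, ∑ q : G, ∑ i ∈ S, K p q i = ∑ p : G, ∑ i ∈ S, ∑ q : G, K p q i :=
        Finset.sum_congr rfl fun p _ => Finset.sum_comm
    _ = _ := Finset.sum_comm

theorem out3S (S : Finset ℕ) (K : G → G → G → ℕ → ℝ) :
    ∑ x : G, ∑ y : G, ∑ z : G, ∑ i ∈ S, K x y z i = ∑ i ∈ S, ∑ x : G, ∑ y : G, ∑ z : G, K x y z i := by
  calc ∑ x : G, ∑ y : G, ∑ z : G, ∑ i ∈ S, K x y z i = ∑ x : G, ∑ i ∈ S, ∑ y : G, ∑ z : G, K x y z i :=
        Finset.sum_congr rfl fun x _ => out2S S (K x)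
    _ = _ := Finset.sum_comm

theorem DD_expand (j : ℕ) (p q r : G) (f g h : G → G → ℝ) :
    DD (MM1 j p q f) (MM1 j q r g) (MM1 j r p h) = (1 / 8) ^ (j + 1) *
      ∑ i ∈ range (2 ^ (j + 1)), ∑ k ∈ range (2 ^ (j + 1)), ∑ l ∈ range (2 ^ (j + 1)),
        (sgn (2 ^ (j + 1)) i * sgn (2 ^ (j + 1)) k * sgn (2 ^ (j + 1)) l) *
        (f (p + (i : G)) (q + (k : G)) * g (q + (k : G)) (r + (l : G)) * h (r + (l : G)) (p + (i : G))) := by
  rw [Lam_zero_DD, Lam_zero_sum1, Finset.mul_sum]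
  refine Finset.sum_congr rfl fun x _ => ?_
  rw [Lam_zero_sum1, Finset.mul_sum]
  refine Finset.sum_congr rfl fun y _ => ?_
  rw [Lam_zero_sum1, Finset.mul_sum]
  refine Finset.sum_congr rfl fun z _ => ?_
  rw [Lam_zero_sgn, Lam_zero_sgn, Lam_zero_sgn]
  unfold MM1
  have e : ((1 : ℝ) / 8) ^ (j + 1) = (1 / 2) ^ (j + 1) * (1 / 2) ^ (j + 1) * (1 / 2) ^ (j + 1) := by
    rw [← mul_pow, ← mul_pow]
    norm_num
  rw [e]
  ring




theorem plane_DD [DecidableEq G] (j : ℕ) (t : G) (f g h : G → G → ℝ) :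
    ∑ p : G, ∑ q : G, DD (MM1 j p q f) (MM1 j q (t - p - q) g) (MM1 j (t - p - q) p h)
      = ∑ x : G, ∑ y : G, ∑ z : G, f x y * g y z * h z x * kG (j + 1) (x + y + z - t) := by
  have hL : ∑ p : G, ∑ q : G, DD (MM1 j p q f) (MM1 j q (t - p - q) g) (MM1 j (t - p - q) p h) =
      (1 / 8) ^ (j + 1) *
      ∑ i ∈ range (2 ^ (j + 1)), ∑ k ∈ range (2 ^ (j + 1)), ∑ l ∈ range (2 ^ (j + 1)),
        (sgn (2 ^ (j + 1)) i * sgn (2 ^ (j + 1)) k * sgn (2 ^ (j + 1)) l) *
        ∑ x : G, ∑ y : G, f x y * g y (t + ((i + k + l : ℕ) : G) - x - y) *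
          h (t + ((i + k + l : ℕ) : G) - x - y) x := by
    simp_rw [DD_expand]
    simp_rw [← Finset.mul_sum]
    congr 1
    rw [out2S]
    refine Finset.sum_congr rfl fun i _ => ?_
    rw [out2S]
    refine Finset.sum_congr rfl fun k _ => ?_
    rw [out2S]
    refine Finset.sum_congr rfl fun l _ => ?_
    simp_rw [← Finset.mul_sum]
    congr 1
    rw [← sum_shift2 (fun x y => f x y * g y (t + ((i + k + l : ℕ) : G) - x - y) *
          h (t + ((i + k + l : ℕ) : G) - x - y) x) (i : G) (k : G)]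
    refine Finset.sum_congr rfl fun p _ => Finset.sum_congr rfl fun q _ => ?_
    have e : t + ((i + k + l : ℕ) : G) - (p + (i : G)) - (q + (k : G)) = t - p - q + (l : G) := by
      push_cast
      ring
    simp only [e]
  have hR : ∑ x : G, ∑ y : G, ∑ z : G, f x y * g y z * h z x * kG (j + 1) (x + y + z - t) =
      (1 / 8) ^ (j + 1) *
      ∑ i ∈ range (2 ^ (j + 1)), ∑ k ∈ range (2 ^ (j + 1)), ∑ l ∈ range (2 ^ (j + 1)),
        (sgn (2 ^ (j + 1)) i * sgn (2 ^ (j + 1)) k * sgn (2 ^ (j + 1)) l) *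
        ∑ x : G, ∑ y : G, f x y * g y (t + ((i + k + l : ℕ) : G) - x - y) *
          h (t + ((i + k + l : ℕ) : G) - x - y) x := by
    have h1 : ∀ x y z : G, f x y * g y z * h z x * kG (j + 1) (x + y + z - t) =
        (1 / 8) ^ (j + 1) * ∑ i ∈ range (2 ^ (j + 1)), ∑ k ∈ range (2 ^ (j + 1)),
          ∑ l ∈ range (2 ^ (j + 1)), (sgn (2 ^ (j + 1)) i * sgn (2 ^ (j + 1)) k * sgn (2 ^ (j + 1)) l) *
            (f x y * (if z = t + ((i + k + l : ℕ) : G) - x - y then g y z * h z x else 0)) := by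
      intro x y z
      unfold kG
      rw [mul_left_comm, Finset.mul_sum]
      congr 1
      refine Finset.sum_congr rfl fun i _ => ?_
      rw [Finset.mul_sum]
      refine Finset.sum_congr rfl fun k _ => ?_
      rw [Finset.mul_sum]
      refine Finset.sum_congr rfl fun l _ => ?_
      by_cases hz : z = t + ((i + k + l : ℕ) : G) - x - y
      · have hz2 : ((i + k + l : ℕ) : G) = x + y + z - t := by
          rw [hz]
          ring
        rw [if_pos hz, if_pos hz2]
        ring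
      · have hz2 : ¬ (((i + k + l : ℕ) : G) = x + y + z - t) := by
          intro h2
          apply hz
          rw [h2]
          ring
        rw [if_neg hz, if_neg hz2]
        ring
    simp_rw [h1]
    simp_rw [← Finset.mul_sum]
    congr 1
    rw [out3S]
    refine Finset.sum_congr rfl fun i _ => ?_
    rw [out3S]
    refine Finset.sum_congr rfl fun k _ => ?_
    rw [out3S]
    refine Finset.sum_congr rfl fun l _ => ?_
    simp_rw [← Finset.mul_sum]
    congr 1
    refine Finset.sum_congr rfl fun x _ => Finset.sum_congr rfl fun y _ => ?_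
    rw [Finset.sum_ite_eq', if_pos (Finset.mem_univ _), mul_assoc]
  rw [hL, hR]

end

end Pool.Agent.TH704
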