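import Pool.Agent.Helper704.Z1.Mid
import Pool.Agent.Helper704.Z1.K_nptt
import Pool.Agent.Helper704.Z1.K_planedd
import Pool.Agent.Helper704.Z1.K_persum
import Pool.Agent.Helper704.Z1.K_pera3

set_option autoImplicit false
set_option maxHeartbeats 4000000
set_option linter.unusedVariables false
set_option linter.unusedSectionVars false

open Matrix Finset

namespace Pool.Agent.TH704

noncomputable section

variable {m n ι : Type*} [Fintype m] [DecidableEq m] [Fintype n] [DecidableEq n]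
  [Fintype ι] [DecidableEq ι]

variable {G : Type*} [CommRing G] [Fintype G]

theorem NP_DD (t : G) (f g h : G → G → ℝ) (J : ℕ) :
    NP (fun _ A B C => |DD A B C|) t f g h J ≤
      2112 * ∑ x : G, ∑ y : G, (|f x y| ^ 3 + |g x y| ^ 3 + |h x y| ^ 3) := by
  have h1 : Filter.Tendsto (fun K : ℕ => NP (fun _ A B C => |TT (2 ^ (2 * K) * (2 ^ K)⁻¹) A B C
      - TT ((2 ^ K)⁻¹) A B C|) t f g h J) Filter.atTop
      (nhds (NP (fun _ A B C => |DD A B C|) t f g h J)) := by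
    have e : ∀ (j : ℕ) (A B C : Matrix (Bool × Idx j) (Bool × Idx j) ℝ),
        Filter.Tendsto (fun K : ℕ => |TT (2 ^ (2 * K) * (2 ^ K)⁻¹) A B C - TT ((2 ^ K)⁻¹) A B C|)
        Filter.atTop (nhds |DD A B C|) := by
      intro j A B C
      have e1 := TT_atTop A B C
      have e2 := TT_zero A B C
      have e3 := (e1.sub e2).abs
      rw [sub_zero] at e3
      refine e3.congr fun K => ?_
      have : (2:ℝ) ^ (2 * K) * (2 ^ K)⁻¹ = 2 ^ K := by
        rw [two_mul, pow_add, mul_assoc, mul_inv_cancel₀ (by positivity), mul_one]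
      rw [this]
    unfold NP
    refine tendsto_finsetSum _ fun j _ => Filter.Tendsto.add ?_ ?_
    · exact tendsto_finsetSum _ fun p _ => tendsto_finsetSum _ fun q _ => e j _ _ _
    · exact tendsto_finsetSum _ fun p _ => tendsto_finsetSum _ fun q _ => e j _ _ _
  exact le_of_tendsto' h1 fun K => NP_TT _ (by positivity) _ _ _ _ _ _

theorem Z1G [DecidableEq G] (t : G) (f g h : G → G → ℝ) (J : ℕ) :
    ∑ j ∈ range J, (|∑ x : G, ∑ y : G, ∑ z : G, f x y * g y z * h z x *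
        kG (j + 1) (x + y + z - np t (j + 1))|
      + |∑ x : G, ∑ y : G, ∑ z : G, f x y * g y z * h z x *
        kG (j + 1) (x + y + z - (np t (j + 1) + ((2 ^ (j + 1) : ℕ) : G)))|) ≤
      2112 * ∑ x : G, ∑ y : G, (|f x y| ^ 3 + |g x y| ^ 3 + |h x y| ^ 3) := by
  refine le_trans ?_ (NP_DD t f g h J)
  unfold NP
  refine Finset.sum_le_sum fun j _ => add_le_add ?_ ?_
  · rw [← plane_DD]
    refine (Finset.abs_sum_le_sum_abs _ _).trans (Finset.sum_le_sum fun p _ => ?_)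
    exact Finset.abs_sum_le_sum_abs _ _
  · rw [← plane_DD]
    refine (Finset.abs_sum_le_sum_abs _ _).trans (Finset.sum_le_sum fun p _ => ?_)
    exact Finset.abs_sum_le_sum_abs _ _

theorem Z1 : ∃ C : ℝ, ∀ (R J : ℕ) (f g h : ℤ → ℤ → ℝ),
    (∀ x y, f x y ≠ 0 → (-(R : ℤ) ≤ x ∧ x < R) ∧ (-(R : ℤ) ≤ y ∧ y < R)) →
    (∀ x y, g x y ≠ 0 → (-(R : ℤ) ≤ x ∧ x < R) ∧ (-(R : ℤ) ≤ y ∧ y < R)) →
    (∀ x y, h x y ≠ 0 → (-(R : ℤ) ≤ x ∧ x < R) ∧ (-(R : ℤ) ≤ y ∧ y < R)) →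
    ∑ j ∈ Finset.Icc 1 J, (|DZ R j (-2 * (2 ^ j - 1)) f g h| +
      |DZ R j (-2 * (2 ^ j - 1) + 2 ^ j) f g h|) ≤ C * (A3 R f + A3 R g + A3 R h) := by
  refine ⟨2112, fun R J f g h hf hg hh => ?_⟩
  set N : ℕ := 10 * R + 10 * 2 ^ J + 10 with hN
  haveI : NeZero N := ⟨by omega⟩
  have h1 := Z1G (G := ZMod N) 0 (per N f) (per N g) (per N h) J
  have e1 : ∑ x : ZMod N, ∑ y : ZMod N, (|per N f x y| ^ 3 + |per N g x y| ^ 3 + |per N h x y| ^ 3)
      = A3 R f + A3 R g + A3 R h := by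
    rw [← per_A3 N R (by omega) f hf, ← per_A3 N R (by omega) g hg, ← per_A3 N R (by omega) h hh]
    simp only [Finset.sum_add_distrib]
  rw [e1] at h1
  refine le_trans (le_of_eq ?_) h1
  rw [Finset.range_eq_Ico, Finset.sum_Ico_add' (fun j => |∑ x : ZMod N, ∑ y : ZMod N, ∑ z : ZMod N,
    per N f x y * per N g y z * per N h z x * kG j (x + y + z - np (0 : ZMod N) j)|
      + |∑ x : ZMod N, ∑ y : ZMod N, ∑ z : ZMod N, per N f x y * per N g y z * per N h z x *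
        kG j (x + y + z - (np (0 : ZMod N) j + ((2 ^ j : ℕ) : ZMod N)))|) 0 J 1]
  have e2 : Finset.Icc 1 J = Finset.Ico (0 + 1) (J + 1) := by
    ext; simp
  rw [e2]
  refine Finset.sum_congr rfl fun j hj => ?_
  rw [Finset.mem_Ico] at hj
  have hjJ : j ≤ J := by omega
  have hpow : (2:ℤ) ^ j ≤ 2 ^ J := pow_le_pow_right₀ (by norm_num) hjJ
  have hp1 : (1:ℤ) ≤ 2 ^ j := one_le_pow₀ (by norm_num)
  have i1 : np (0 : ZMod N) j = ((-2 * (2 ^ j - 1) : ℤ) : ZMod N) := by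
    unfold np; push_cast; ring
  have i2 : np (0 : ZMod N) j + ((2 ^ j : ℕ) : ZMod N) = ((-2 * (2 ^ j - 1) + 2 ^ j : ℤ) : ZMod N) := by
    unfold np; push_cast; ring
  rw [i2, i1, per_sum3 N R J (by omega) j hjJ _ (by rw [abs_le]; constructor <;> linarith) f g h hf hg hh,
    per_sum3 N R J (by omega) j hjJ _ (by rw [abs_le]; constructor <;> linarith) f g h hf hg hh]

end

end Pool.Agent.TH704
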