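import Pool.Agent.Helper912.ZDefs
import Pool.Agent.Helper704.Z1.Main

set_option autoImplicit false

open Finset

namespace Pool.Agent.TH704

theorem sgn_eq912 (j i : ℕ) (hj : 1 ≤ j) : Helper912.Z.sgn (2 ^ j) i = sgn (2 ^ j) i := by
  obtain ⟨k, rfl⟩ : ∃ k, j = k + 1 := ⟨j - 1, by omega⟩
  unfold Helper912.Z.sgn sgn
  have e : 2 ^ (k + 1) / 2 = 2 ^ k := by
    rw [pow_succ]; simp
  rw [e]
  have : i < 2 ^ k ↔ 2 * i < 2 ^ (k + 1) := by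
    rw [pow_succ]; omega
  simp only [this]

theorem kk_eq912 (j : ℕ) (hj : 1 ≤ j) (m : ℤ) : Helper912.Z.kk j m = kk j m := by
  unfold Helper912.Z.kk kk
  congr 1
  refine Finset.sum_congr rfl fun i _ => Finset.sum_congr rfl fun k _ =>
    Finset.sum_congr rfl fun l _ => ?_
  rw [sgn_eq912 j i hj, sgn_eq912 j k hj, sgn_eq912 j l hj]

theorem DD_eq912 (R j : ℕ) (hj : 1 ≤ j) (n : ℤ) (f g h : ℤ → ℤ → ℝ) :
    Helper912.Z.DD R j n f g h = DZ R j n f g h := by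
  unfold Helper912.Z.DD DZ
  simp only [kk_eq912 j hj]

theorem Z1_912 : Helper912.Z.Z1 := by
  obtain ⟨C, hC⟩ := Z1
  refine ⟨C, fun R J f g h hf hg hh => ?_⟩
  have H : ∀ f : ℤ → ℤ → ℝ, Helper912.Z.Box R f →
      ∀ x y, f x y ≠ 0 → (-(R : ℤ) ≤ x ∧ x < R) ∧ (-(R : ℤ) ≤ y ∧ y < R) := by
    intro f hf x y hxy
    by_contra hc
    exact hxy (hf x y (fun ⟨a, b, c, d⟩ => hc ⟨⟨a, b⟩, ⟨c, d⟩⟩))
  refine le_trans (le_of_eq ?_) (hC R J f g h (H f hf) (H g hg) (H h hh))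
  refine Finset.sum_congr rfl fun j hj => ?_
  have hj1 : 1 ≤ j := (Finset.mem_Icc.mp hj).1
  rw [DD_eq912 R j hj1, DD_eq912 R j hj1]

end Pool.Agent.TH704
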