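import Pool.Agent.Helper704.TH.Main

set_option autoImplicit false
set_option maxHeartbeats 4000000

open Matrix Finset

namespace Pool.Agent.TH704

noncomputable section

variable {m n ι : Type*} [Fintype m] [DecidableEq m] [Fintype n] [DecidableEq n]
  [Fintype ι] [DecidableEq ι]

variable {G : Type*} [CommRing G] [Fintype G]

/-- matrix of the square of side `2^j` at `(p,q)` -/
def MM (j : ℕ) (p q : G) (f : G → G → ℝ) : Matrix (Idx j) (Idx j) ℝ :=
  fun i k => (1 / 2) ^ j * f (p + ((vl j i : ℕ) : G)) (q + ((vl j k : ℕ) : G))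

/-- the same at level `j+1` with the product index type -/
def MM1 (j : ℕ) (p q : G) (f : G → G → ℝ) : Matrix (Bool × Idx j) (Bool × Idx j) ℝ :=
  fun i k => (1 / 2) ^ (j + 1) * f (p + ((off j i.1 + vl j i.2 : ℕ) : G))
    (q + ((off j k.1 + vl j k.2 : ℕ) : G))

/-- plane sums of `tr P Q` -/
def HH (j : ℕ) (t : G) (f g : G → G → ℝ) : ℝ :=
  ∑ p : G, ∑ q : G, trace (PP (MM j p q f) * QQ (MM j q (t - p - q) g))

/-- plane sums of the energy -/
def EH (j : ℕ) (t : G) (f g : G → G → ℝ) : ℝ :=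
  ∑ p : G, ∑ q : G, EE (MM1 j p q f) (MM1 j q (t - p - q) g)

/-- total `Ψ` -/
def SS (j : ℕ) (f : G → G → ℝ) : ℝ := ∑ p : G, ∑ q : G, Psi (MM j p q f)

/-- plane sum of the total energy -/
def EP (j : ℕ) (t : G) (f g h : G → G → ℝ) : ℝ :=
  ∑ p : G, ∑ q : G, E3 (MM1 j p q f) (MM1 j q (t - p - q) g) (MM1 j (t - p - q) p h)

/-- the two-plane average -/
def GG (j : ℕ) (t : G) (f g : G → G → ℝ) : ℝ :=
  (1 / 2) * (HH j t f g + HH j (t + ((2 ^ j : ℕ) : G)) f g)

/-- the planes -/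
def np (t : G) (j : ℕ) : G := t - 2 * (((2 ^ j : ℕ) : G) - 1)

/-- the potential of the plane argument -/
def PhiZ (t : G) (j : ℕ) (f g h : G → G → ℝ) : ℝ :=
  GG j (np t j) f g + GG j (np t j) g h + GG j (np t j) h f + 32 * (SS j f + SS j g + SS j h)

end

end Pool.Agent.TH704
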