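import Pool.Agent.Helper704.Z1.Main

set_option autoImplicit false
set_option maxHeartbeats 4000000

open Matrix Finset

namespace Pool.Agent.TH704

noncomputable section

theorem Z1t (R J : ℕ) (t : ℤ) (f g h : ℤ → ℤ → ℝ)
    (hf : ∀ x y, f x y ≠ 0 → (-(R : ℤ) ≤ x ∧ x < R) ∧ (-(R : ℤ) ≤ y ∧ y < R))
    (hg : ∀ x y, g x y ≠ 0 → (-(R : ℤ) ≤ x ∧ x < R) ∧ (-(R : ℤ) ≤ y ∧ y < R))
    (hh : ∀ x y, h x y ≠ 0 → (-(R : ℤ) ≤ x ∧ x < R) ∧ (-(R : ℤ) ≤ y ∧ y < R)) :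
    ∑ j ∈ Finset.Icc 1 J, (|DZ R j (t - 2 * (2 ^ j - 1)) f g h| +
      |DZ R j (t - 2 * (2 ^ j - 1) + 2 ^ j) f g h|) ≤ 2112 * (A3 R f + A3 R g + A3 R h) := by
  set J' : ℕ := J + t.natAbs + 1 with hJ'
  set N : ℕ := 10 * R + 10 * 2 ^ J' + 10 with hN
  haveI : NeZero N := ⟨by omega⟩
  have h1 := Z1G (G := ZMod N) (t : ZMod N) (per N f) (per N g) (per N h) J
  have e1 : ∑ x : ZMod N, ∑ y : ZMod N, (|per N f x y| ^ 3 + |per N g x y| ^ 3 + |per N h x y| ^ 3)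
      = A3 R f + A3 R g + A3 R h := by
    rw [← per_A3 N R (by omega) f hf, ← per_A3 N R (by omega) g hg, ← per_A3 N R (by omega) h hh]
    simp only [Finset.sum_add_distrib]
  rw [e1] at h1
  refine le_trans (le_of_eq ?_) h1
  rw [Finset.range_eq_Ico, Finset.sum_Ico_add' (fun j => |∑ x : ZMod N, ∑ y : ZMod N, ∑ z : ZMod N,
    per N f x y * per N g y z * per N h z x * kG j (x + y + z - np (t : ZMod N) j)|
      + |∑ x : ZMod N, ∑ y : ZMod N, ∑ z : ZMod N, per N f x y * per N g y z * per N h z x *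
        kG j (x + y + z - (np (t : ZMod N) j + ((2 ^ j : ℕ) : ZMod N)))|) 0 J 1]
  have e2 : Finset.Icc 1 J = Finset.Ico (0 + 1) (J + 1) := by
    ext; simp
  rw [e2]
  refine Finset.sum_congr rfl fun j hj => ?_
  rw [Finset.mem_Ico] at hj
  have hjJ : j ≤ J := by omega
  have hpow : (2:ℤ) ^ j ≤ 2 ^ J := pow_le_pow_right₀ (by norm_num) hjJ
  have hpow' : (2:ℤ) ^ J ≤ 2 ^ J' := pow_le_pow_right₀ (by norm_num) (by omega)
  have hp1 : (1:ℤ) ≤ 2 ^ j := one_le_pow₀ (by norm_num)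
  have ht : |t| ≤ 2 ^ J' := by
    have a1 : t.natAbs < 2 ^ t.natAbs := Nat.lt_two_pow_self
    have a2 : 2 ^ t.natAbs ≤ 2 ^ J' := Nat.pow_le_pow_right (by norm_num) (by omega)
    have a3 : (t.natAbs : ℤ) ≤ ((2 ^ J' : ℕ) : ℤ) := by exact_mod_cast (a1.le.trans a2)
    rw [Int.natCast_natAbs] at a3
    simpa using a3
  obtain ⟨ht1, ht2⟩ := abs_le.mp ht
  have i1 : np (t : ZMod N) j = ((t - 2 * (2 ^ j - 1) : ℤ) : ZMod N) := by
    unfold np; push_cast; ring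
  have i2 : np (t : ZMod N) j + ((2 ^ j : ℕ) : ZMod N)
      = ((t - 2 * (2 ^ j - 1) + 2 ^ j : ℤ) : ZMod N) := by
    unfold np; push_cast; ring
  rw [i2, i1, per_sum3 N R J' (by omega) j (by omega) _
      (by rw [abs_le]; constructor <;> linarith) f g h hf hg hh,
    per_sum3 N R J' (by omega) j (by omega) _
      (by rw [abs_le]; constructor <;> linarith) f g h hf hg hh]

/-- discrete estimate for one kernel (helper703's form) -/
def Z1P (C : ℝ) (κ : ℤ → ℝ) : Prop :=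
  ∀ (I : Finset ℤ) (f g h : ℤ → ℤ → ℝ),
    |∑ x ∈ I, ∑ y ∈ I, ∑ z ∈ I, f x y * g y z * h z x * κ (x + y + z)|
      ≤ C * ((∑ x ∈ I, ∑ y ∈ I, |f x y|^3) + (∑ y ∈ I, ∑ z ∈ I, |g y z|^3)
        + (∑ z ∈ I, ∑ x ∈ I, |h z x|^3))

/-- restriction to `I × I` -/
def rI (I : Finset ℤ) (f : ℤ → ℤ → ℝ) : ℤ → ℤ → ℝ :=
  fun x y => if x ∈ I ∧ y ∈ I then f x y else 0

theorem Z1_form (J : ℕ) (t : ℤ) (e e' : ℕ → ℝ) (he : ∀ j, |e j| ≤ 1) (he' : ∀ j, |e' j| ≤ 1) :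
    Z1P 2112 (fun m => ∑ j ∈ Finset.Icc 1 J, (e j * kk j (m - (t - 2 * (2 ^ j - 1)))
      + e' j * kk j (m - (t - 2 * (2 ^ j - 1) + 2 ^ j)))) := by
  intro I f g h
  set R : ℕ := I.sup Int.natAbs + 1 with hR
  have hI : ∀ x ∈ I, -(R : ℤ) ≤ x ∧ x < R := by
    intro x hx
    have := Finset.le_sup (f := Int.natAbs) hx
    omega
  have hsub : I ⊆ Finset.Ico (-(R : ℤ)) (R : ℤ) := by
    intro x hx
    rw [Finset.mem_Ico]
    exact hI x hx
  have hb : ∀ f : ℤ → ℤ → ℝ, ∀ x y, rI I f x y ≠ 0 →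
      (-(R : ℤ) ≤ x ∧ x < R) ∧ (-(R : ℤ) ≤ y ∧ y < R) := by
    intro f x y hxy
    unfold rI at hxy
    split_ifs at hxy with hc
    · exact ⟨hI x hc.1, hI y hc.2⟩
    · exact absurd rfl hxy
  have hA : ∀ f : ℤ → ℤ → ℝ, A3 R (rI I f) = ∑ x ∈ I, ∑ y ∈ I, |f x y| ^ 3 := by
    intro f
    unfold A3
    rw [← Finset.sum_subset hsub]
    · refine Finset.sum_congr rfl fun x hx => ?_
      rw [← Finset.sum_subset hsub]
      · refine Finset.sum_congr rfl fun y hy => ?_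
        unfold rI
        rw [if_pos ⟨hx, hy⟩]
      · intro y _ hy
        unfold rI
        rw [if_neg (fun hc => hy hc.2)]
        simp
    · intro x _ hx
      refine Finset.sum_eq_zero fun y _ => ?_
      unfold rI
      rw [if_neg (fun hc => hx hc.1)]
      simp
  have key : ∀ κ : ℤ → ℝ, ∑ x ∈ I, ∑ y ∈ I, ∑ z ∈ I, f x y * g y z * h z x * κ (x + y + z)
      = ∑ x ∈ Finset.Ico (-(R : ℤ)) (R : ℤ), ∑ y ∈ Finset.Ico (-(R : ℤ)) (R : ℤ),
        ∑ z ∈ Finset.Ico (-(R : ℤ)) (R : ℤ),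
          rI I f x y * rI I g y z * rI I h z x * κ (x + y + z) := by
    intro κ
    rw [← Finset.sum_subset hsub]
    · refine Finset.sum_congr rfl fun x hx => ?_
      rw [← Finset.sum_subset hsub]
      · refine Finset.sum_congr rfl fun y hy => ?_
        rw [← Finset.sum_subset hsub]
        · refine Finset.sum_congr rfl fun z hz => ?_
          unfold rI
          rw [if_pos ⟨hx, hy⟩, if_pos ⟨hy, hz⟩, if_pos ⟨hz, hx⟩]
        · intro z _ hz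
          unfold rI
          rw [if_neg (fun hc => hz hc.1 : ¬ (z ∈ I ∧ x ∈ I))]
          simp
      · intro y _ hy
        refine Finset.sum_eq_zero fun z _ => ?_
        unfold rI
        rw [if_neg (fun hc => hy hc.2 : ¬ (x ∈ I ∧ y ∈ I))]
        simp
    · intro x _ hx
      refine Finset.sum_eq_zero fun y _ => Finset.sum_eq_zero fun z _ => ?_
      unfold rI
      rw [if_neg (fun hc => hx hc.1 : ¬ (x ∈ I ∧ y ∈ I))]
      simp
  rw [key (fun m => ∑ j ∈ Finset.Icc 1 J, (e j * kk j (m - (t - 2 * (2 ^ j - 1)))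
      + e' j * kk j (m - (t - 2 * (2 ^ j - 1) + 2 ^ j))))]
  have hexp : ∑ x ∈ Finset.Ico (-(R : ℤ)) (R : ℤ), ∑ y ∈ Finset.Ico (-(R : ℤ)) (R : ℤ),
        ∑ z ∈ Finset.Ico (-(R : ℤ)) (R : ℤ),
          rI I f x y * rI I g y z * rI I h z x * (∑ j ∈ Finset.Icc 1 J,
            (e j * kk j (x + y + z - (t - 2 * (2 ^ j - 1)))
            + e' j * kk j (x + y + z - (t - 2 * (2 ^ j - 1) + 2 ^ j))))
      = ∑ j ∈ Finset.Icc 1 J, (e j * DZ R j (t - 2 * (2 ^ j - 1)) (rI I f) (rI I g) (rI I h)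
        + e' j * DZ R j (t - 2 * (2 ^ j - 1) + 2 ^ j) (rI I f) (rI I g) (rI I h)) := by
    unfold DZ
    simp only [Finset.mul_sum, ← Finset.sum_add_distrib]
    have c1 : ∀ x y : ℤ, ∑ z ∈ Finset.Ico (-(R : ℤ)) (R : ℤ), ∑ j ∈ Finset.Icc 1 J,
        rI I f x y * rI I g y z * rI I h z x * (e j * kk j (x + y + z - (t - 2 * (2 ^ j - 1)))
            + e' j * kk j (x + y + z - (t - 2 * (2 ^ j - 1) + 2 ^ j)))
        = ∑ j ∈ Finset.Icc 1 J, ∑ z ∈ Finset.Ico (-(R : ℤ)) (R : ℤ),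
        rI I f x y * rI I g y z * rI I h z x * (e j * kk j (x + y + z - (t - 2 * (2 ^ j - 1)))
            + e' j * kk j (x + y + z - (t - 2 * (2 ^ j - 1) + 2 ^ j))) :=
      fun x y => Finset.sum_comm
    simp only [c1]
    have c2 : ∀ x : ℤ, ∑ y ∈ Finset.Ico (-(R : ℤ)) (R : ℤ), ∑ j ∈ Finset.Icc 1 J,
        ∑ z ∈ Finset.Ico (-(R : ℤ)) (R : ℤ),
        rI I f x y * rI I g y z * rI I h z x * (e j * kk j (x + y + z - (t - 2 * (2 ^ j - 1)))
            + e' j * kk j (x + y + z - (t - 2 * (2 ^ j - 1) + 2 ^ j)))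
        = ∑ j ∈ Finset.Icc 1 J, ∑ y ∈ Finset.Ico (-(R : ℤ)) (R : ℤ),
        ∑ z ∈ Finset.Ico (-(R : ℤ)) (R : ℤ),
        rI I f x y * rI I g y z * rI I h z x * (e j * kk j (x + y + z - (t - 2 * (2 ^ j - 1)))
            + e' j * kk j (x + y + z - (t - 2 * (2 ^ j - 1) + 2 ^ j))) :=
      fun x => Finset.sum_comm
    simp only [c2]
    rw [Finset.sum_comm]
    refine Finset.sum_congr rfl fun j _ => Finset.sum_congr rfl fun x _ =>
      Finset.sum_congr rfl fun y _ => Finset.sum_congr rfl fun z _ => ?_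
    ring
  rw [hexp]
  refine (Finset.abs_sum_le_sum_abs _ _).trans ?_
  have hz := Z1t R J t (rI I f) (rI I g) (rI I h) (hb f) (hb g) (hb h)
  rw [hA, hA, hA] at hz
  refine le_trans (Finset.sum_le_sum fun j _ => ?_) hz
  refine (abs_add_le _ _).trans (add_le_add ?_ ?_)
  · rw [abs_mul]
    exact mul_le_of_le_one_left (abs_nonneg _) (he j)
  · rw [abs_mul]
    exact mul_le_of_le_one_left (abs_nonneg _) (he' j)

end

end Pool.Agent.TH704
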