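import Pool.Agent.Helper704.Z1.Pre

set_option autoImplicit false
set_option maxHeartbeats 4000000
set_option linter.unusedVariables false
set_option linter.unusedSectionVars false

open Matrix Finset

namespace Pool.Agent.TH704

noncomputable section

variable {m n ι : Type*} [Fintype m] [DecidableEq m] [Fintype n] [DecidableEq n]
  [Fintype ι] [DecidableEq ι]

variable {G : Type*} [CommRing G] [Fintype G]


















theorem aux_term444 (j : ℕ) (t : G) (f g : G → G → ℝ) (u v w : G) :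
    ∑ p : G, ∑ q : G, trace (PP (MM j (p + u) (q + v) f) * QQ (MM j (q + v) (t - p - q + w) g))
      = HH j (t + u + v + w) f g := by
  unfold HH
  rw [← sum_shift2 (fun p q => trace (PP (MM j p q f) * QQ (MM j q (t + u + v + w - p - q) g))) u v]
  apply Finset.sum_congr rfl; intro p _; apply Finset.sum_congr rfl; intro q _
  have : t + u + v + w - (p + u) - (q + v) = t - p - q + w := by ring
  simp only [this]

theorem HH_ineq (j : ℕ) (t : G) (f g : G → G → ℝ) :
    HH (j + 1) t f g + (1 / 2) * EH j t f g ≤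
      (1 / 8) * (HH j t f g + 3 * HH j (t + ((2 ^ j : ℕ) : G)) f g
        + 3 * HH j (t + 2 * ((2 ^ j : ℕ) : G)) f g + HH j (t + 3 * ((2 ^ j : ℕ) : G)) f g)
      + 10 * (SS j f - SS (j + 1) f) + 10 * (SS j g - SS (j + 1) g) := by
  have h : ∀ p q : G, trace (PP (MM1 j p q f) * QQ (MM1 j q (t - p - q) g))
      + (1 / 2) * EE (MM1 j p q f) (MM1 j q (t - p - q) g) ≤
      (1 / 8) * ∑ a : Bool, ∑ b : Bool, ∑ c : Bool,
        trace (PP (MM j (p + ((off j a : ℕ) : G)) (q + ((off j b : ℕ) : G)) f)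
          * QQ (MM j (q + ((off j b : ℕ) : G)) (t - p - q + ((off j c : ℕ) : G)) g))
      + 10 * (dPsi (fun a b => MM j (p + ((off j a : ℕ) : G)) (q + ((off j b : ℕ) : G)) f)
        + dPsi (fun a b => MM j (q + ((off j a : ℕ) : G)) (t - p - q + ((off j b : ℕ) : G)) g)) := by
    intro p q
    have := PL8 (fun a b => MM j (p + ((off j a : ℕ) : G)) (q + ((off j b : ℕ) : G)) f)
      (fun a b => MM j (q + ((off j a : ℕ) : G)) (t - p - q + ((off j b : ℕ) : G)) g)
    rw [← MM1_eq_blk, ← MM1_eq_blk] at this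
    exact this
  have hs := Finset.sum_le_sum (s := (Finset.univ : Finset G)) fun p _ =>
    Finset.sum_le_sum (s := (Finset.univ : Finset G)) fun q _ => h p q
  simp only [Fintype.sum_bool, Finset.sum_add_distrib, ← Finset.mul_sum, aux_term444] at hs
  rw [SS_diff] at hs
  have hrot := sum_rot (fun q r => dPsi (fun a b => MM j (q + ((off j a : ℕ) : G)) (r + ((off j b : ℕ) : G)) g)) t

  rw [hrot, SS_diff] at hs
  have ht : ((off j true : ℕ) : G) = ((2 ^ j : ℕ) : G) := by simp [off]
  have hf : ((off j false : ℕ) : G) = 0 := by simp [off]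
  rw [ht, hf] at hs
  simp only [add_zero] at hs
  have g3 : t + 3 * ((2 ^ j : ℕ) : G) = t + ((2 ^ j : ℕ) : G) + ((2 ^ j : ℕ) : G) + ((2 ^ j : ℕ) : G) := by ring
  have g2 : t + 2 * ((2 ^ j : ℕ) : G) = t + ((2 ^ j : ℕ) : G) + ((2 ^ j : ℕ) : G) := by ring
  rw [g3, g2, HH_succ]
  unfold EH
  linarith

end

end Pool.Agent.TH704
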