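import Pool.Agent.Helper704.Z1.Defs

set_option autoImplicit false
set_option maxHeartbeats 4000000
set_option linter.unusedVariables false
set_option linter.unusedSectionVars false

open Matrix Finset

namespace Pool.Agent.TH704

noncomputable section

variable {m n ι : Type*} [Fintype m] [DecidableEq m] [Fintype n] [DecidableEq n]
  [Fintype ι] [DecidableEq ι]

variable {G : Type*} [CommRing G] [Fintype G]

theorem PL8 (f g : Bool → Bool → Matrix ι ι ℝ) :
    trace (PP (blk f) * QQ (blk g)) + (1 / 2) * EE (blk f) (blk g)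
      ≤ (1 / 8) * ∑ a : Bool, ∑ b : Bool, ∑ c : Bool, trace (PP (f a b) * QQ (g b c))
        + 10 * (dPsi f + dPsi g) := by
  have h1 := step1 f g
  have h2 : ∀ a c : Bool, _ := fun a c => step2 (f a) (fun b => g b c)
  have r1 := chain_row f
  have r2 := chain_col f
  have r3 := chain_row g
  have r4 := chain_col g
  have n1 : ∀ X Y : Matrix (Bool × ι) (Bool × ι) ℝ, X.PosDef → Y.PosDef → 0 ≤ LD X Y :=
    fun X Y => LD_nonneg X Y
  have n2 : ∀ X Y : Matrix ι ι ℝ, X.PosDef → Y.PosDef → 0 ≤ LD X Y :=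
    fun X Y => LD_nonneg X Y
  have p1 := n1 _ _ (posdef_row (rw2 (f false))) (posdef_row (rw2 (f true)))
  have p4 := n1 _ _ (posdef_col (cl2 (fun b => g b false))) (posdef_col (cl2 (fun b => g b true)))
  have h200 := h2 false false
  have h201 := h2 false true
  have h210 := h2 true false
  have h211 := h2 true true
  simp only [Fintype.sum_bool] at *
  linarith

theorem MM1_eq_blk (j : ℕ) (p q : G) (f : G → G → ℝ) :
    MM1 j p q f = blk (fun a b => MM j (p + ((off j a : ℕ) : G)) (q + ((off j b : ℕ) : G)) f) := by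
  funext i k
  simp only [MM1, blk, MM]
  push_cast
  rw [add_assoc, add_assoc]
  ring

theorem MM_succ (j : ℕ) (p q : G) (f : G → G → ℝ) (F : Matrix (Bool × Idx j) (Bool × Idx j) ℝ → ℝ) :
    F (MM (j + 1) p q f) = F (MM1 j p q f) := rfl

theorem SS_succ (j : ℕ) (f : G → G → ℝ) :
    SS (j + 1) f = ∑ p : G, ∑ q : G, Psi (MM1 j p q f) := rfl

theorem HH_succ (j : ℕ) (t : G) (f g : G → G → ℝ) :
    HH (j + 1) t f g = ∑ p : G, ∑ q : G, trace (PP (MM1 j p q f) * QQ (MM1 j q (t - p - q) g)) := rfl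

/-- translation invariance of double sums -/
theorem sum_shift2 (F : G → G → ℝ) (u v : G) :
    ∑ p : G, ∑ q : G, F (p + u) (q + v) = ∑ p : G, ∑ q : G, F p q := by
  rw [← Equiv.sum_comp (Equiv.addRight u) (fun p => ∑ q : G, F p q)]
  refine Finset.sum_congr rfl fun p _ => ?_
  rw [← Equiv.sum_comp (Equiv.addRight v) (fun q => F ((Equiv.addRight u) p) q)]
  rfl

/-- rotation of the plane -/
theorem sum_rot (F : G → G → ℝ) (t : G) :
    ∑ p : G, ∑ q : G, F q (t - p - q) = ∑ q : G, ∑ r : G, F q r := by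
  rw [Finset.sum_comm]
  refine Finset.sum_congr rfl fun q _ => ?_
  rw [← Equiv.sum_comp (Equiv.subLeft (t - q)) (fun r => F q r)]
  refine Finset.sum_congr rfl fun p _ => ?_
  simp only [Equiv.subLeft_apply]
  congr 1
  ring

theorem SS_diff (j : ℕ) (f : G → G → ℝ) :
    ∑ p : G, ∑ q : G, dPsi (fun a b => MM j (p + ((off j a : ℕ) : G)) (q + ((off j b : ℕ) : G)) f)
      = SS j f - SS (j + 1) f := by
  rw [SS_succ]
  unfold dPsi
  simp only [Finset.sum_sub_distrib, ← MM1_eq_blk, ← Finset.mul_sum]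
  congr 1
  simp only [Fintype.sum_bool, Finset.sum_add_distrib]
  rw [sum_shift2 (fun p q => Psi (MM j p q f)), sum_shift2 (fun p q => Psi (MM j p q f)),
    sum_shift2 (fun p q => Psi (MM j p q f)), sum_shift2 (fun p q => Psi (MM j p q f))]
  unfold SS
  ring

/-- sum of the scalar potential -/
def SC (f : G → G → ℝ) : ℝ := ∑ p : G, ∑ q : G, sc (f p q)

/-- scaled array -/
def sG (c : ℝ) (f : G → G → ℝ) : G → G → ℝ := fun x y => c * f x y

theorem MM1_sG (j : ℕ) (p q : G) (c : ℝ) (f : G → G → ℝ) :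
    MM1 j p q (sG c f) = c • MM1 j p q f := by
  funext i k
  simp only [MM1, sG, Matrix.smul_apply, smul_eq_mul]
  ring

/-- plane sum of the absolute values of a node functional -/
def NP (N : ∀ j : ℕ, Matrix (Bool × Idx j) (Bool × Idx j) ℝ → Matrix (Bool × Idx j) (Bool × Idx j) ℝ →
    Matrix (Bool × Idx j) (Bool × Idx j) ℝ → ℝ) (t : G) (f g h : G → G → ℝ) (J : ℕ) : ℝ :=
  ∑ j ∈ range J, ((∑ p : G, ∑ q : G, N j (MM1 j p q f) (MM1 j q (np t (j + 1) - p - q) g)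
      (MM1 j (np t (j + 1) - p - q) p h))
    + ∑ p : G, ∑ q : G, N j (MM1 j p q f)
      (MM1 j q (np t (j + 1) + ((2 ^ (j + 1) : ℕ) : G) - p - q) g)
      (MM1 j (np t (j + 1) + ((2 ^ (j + 1) : ℕ) : G) - p - q) p h))

/-- the discrete kernel on `G` -/
def kG [DecidableEq G] (j : ℕ) (x : G) : ℝ :=
  (1 / 8) ^ j * ∑ i ∈ range (2 ^ j), ∑ k ∈ range (2 ^ j), ∑ l ∈ range (2 ^ j),
    if ((i + k + l : ℕ) : G) = x then sgn (2 ^ j) i * sgn (2 ^ j) k * sgn (2 ^ j) l else 0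

/-- the discrete kernel -/
def kk (j : ℕ) (x : ℤ) : ℝ :=
  (1 / 8 ^ j) * ∑ i ∈ range (2 ^ j), ∑ k ∈ range (2 ^ j), ∑ l ∈ range (2 ^ j),
    if ((i : ℤ) + (k : ℤ) + (l : ℤ)) = x then sgn (2 ^ j) i * sgn (2 ^ j) k * sgn (2 ^ j) l else 0

/-- the form on a plane -/
def DZ (R : ℕ) (j : ℕ) (t : ℤ) (f g h : ℤ → ℤ → ℝ) : ℝ :=
  ∑ x ∈ Ico (-(R : ℤ)) (R : ℤ), ∑ y ∈ Ico (-(R : ℤ)) (R : ℤ), ∑ z ∈ Ico (-(R : ℤ)) (R : ℤ),
    f x y * g y z * h z x * kk j (x + y + z - t)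

/-- sum of cubes -/
def A3 (R : ℕ) (f : ℤ → ℤ → ℝ) : ℝ :=
  ∑ x ∈ Ico (-(R : ℤ)) (R : ℤ), ∑ y ∈ Ico (-(R : ℤ)) (R : ℤ), |f x y| ^ 3

/-- periodised array -/
def per (N : ℕ) (f : ℤ → ℤ → ℝ) : ZMod N → ZMod N → ℝ :=
  fun x y => f x.valMinAbs y.valMinAbs

end

end Pool.Agent.TH704
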